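import Pool.Agent.Lib.MP_defcf3_al.BR.StageI

/-! # Module UNIQ (project BR7): Brauer equivalent algebras have cohomologous factor sets; helper65. -/

set_option autoImplicit false

open Filter Topology

namespace BR7.H65

universe u v

section
variable {F Ω : Type u} [Field F] [Field Ω] [Algebra F Ω]

/-- entrywise action of a Galois automorphism -/
def mp (k : Type v) [Fintype k] [DecidableEq k] (g : Ω ≃ₐ[F] Ω) :
    Matrix k k Ω →+* Matrix k k Ω :=
  ((g : Ω →ₐ[F] Ω) : Ω →+* Ω).mapMatrix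

lemma mp_apply (k : Type v) [Fintype k] [DecidableEq k] (g : Ω ≃ₐ[F] Ω) (M : Matrix k k Ω) :
    mp k g M = M.map g := rfl

lemma mp_smul (k : Type v) [Fintype k] [DecidableEq k] (g : Ω ≃ₐ[F] Ω) (c : Ω) (M : Matrix k k Ω) :
    mp k g (c • M) = g c • mp k g M := by
  ext i j
  simp [mp_apply, Matrix.map_apply]

lemma mp_mul (k : Type v) [Fintype k] [DecidableEq k] (g h : Ω ≃ₐ[F] Ω) (M : Matrix k k Ω) :
    mp k (g * h) M = mp k g (mp k h M) := by
  ext i j
  simp [mp_apply, Matrix.map_apply]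

lemma lc_apply [IsGalois F Ω] (x : Ω) : IsLocallyConstant (fun g : Ω ≃ₐ[F] Ω => g x) := by
  have hstab : IsOpen {g : Ω ≃ₐ[F] Ω | g x = x} := by
    have h1 : FiniteDimensional F (IntermediateField.adjoin F {x}) :=
      IntermediateField.adjoin.finiteDimensional (Algebra.IsIntegral.isIntegral (R := F) x)
    have h2 := IntermediateField.fixingSubgroup_isOpen (IntermediateField.adjoin F {x})
    have h3 : IsOpen ((MulAction.stabilizer (Ω ≃ₐ[F] Ω) x : Subgroup (Ω ≃ₐ[F] Ω)) :
        Set (Ω ≃ₐ[F] Ω)) := by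
      refine Subgroup.isOpen_mono (H₁ := (IntermediateField.adjoin F {x}).fixingSubgroup) ?_ h2
      intro g hg
      rw [MulAction.mem_stabilizer_iff]
      exact (IntermediateField.mem_fixingSubgroup_iff _ _).1 hg x
        (IntermediateField.mem_adjoin_simple_self F x)
    exact h3
  rw [IsLocallyConstant.iff_exists_open]
  intro g
  refine ⟨(fun h => g⁻¹ * h) ⁻¹' {h | h x = x}, hstab.preimage (continuous_const.mul continuous_id),
    ?_, ?_⟩
  · show (g⁻¹ * g) x = x
    rw [inv_mul_cancel]; rfl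
  · intro h hh
    have h3 : (g⁻¹ * h) x = x := hh
    have h4 : g ((g⁻¹ * h) x) = g x := by rw [h3]
    rw [← h4, ← AlgEquiv.mul_apply, mul_inv_cancel_left]

lemma lc_mp [IsGalois F Ω] (k : Type v) [Fintype k] [DecidableEq k] (M : Matrix k k Ω) :
    IsLocallyConstant (fun g : Ω ≃ₐ[F] Ω => mp k g M) := by
  rw [IsLocallyConstant.iff_eventually_eq]
  intro g
  have h1 : ∀ i j, ∀ᶠ h in 𝓝 g, h (M i j) = g (M i j) := fun i j =>
    (IsLocallyConstant.iff_eventually_eq _).1 (lc_apply (M i j)) g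
  have h2 : ∀ᶠ h in 𝓝 g, ∀ i j, h (M i j) = g (M i j) :=
    Filter.eventually_all.2 (fun i => Filter.eventually_all.2 (h1 i))
  filter_upwards [h2] with h hh
  ext i j
  exact hh i j

/-- two splittings of the same algebra on the same index set have cohomologous factor sets -/
theorem core [IsGalois F Ω] (h1 : SkoNoStatement.{u, v}) (C : Type u) [Ring C] [Algebra F C]
    (k : Type v) [Fintype k] [DecidableEq k] (f f' : (Ω ≃ₐ[F] Ω) → (Ω ≃ₐ[F] Ω) → Ωˣ)
    (R : RepData F Ω C k f) (R' : RepData F Ω C k f') : f * f'⁻¹ ∈ B2 (Ω ≃ₐ[F] Ω) Ωˣ := by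
  classical
  obtain ⟨i0⟩ := R.ne
  have hsc : ∀ (j : C →ₐ[F] Matrix k k Ω) (c : F),
      (j : C →+* Matrix k k Ω) (algebraMap F C c) = Matrix.scalar k (algebraMap F Ω c) := by
    intro j c
    rw [AlgHom.coe_toRingHom, AlgHom.commutes]
    rfl
  obtain ⟨w, hw⟩ := h1 F Ω C k R.dim R.ne (R.ι : C →+* Matrix k k Ω) (R'.ι : C →+* Matrix k k Ω)
    (hsc R.ι) (hsc R'.ι) R.span R'.span
  have hw' : ∀ a, R'.ι a = (↑w⁻¹ : Matrix k k Ω) * R.ι a * (w : Matrix k k Ω) := hw
  -- the invertible matrices z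
  let z : (Ω ≃ₐ[F] Ω) → (Matrix k k Ω)ˣ := fun g =>
    R.u g * Units.map ((mp k g : Matrix k k Ω →+* Matrix k k Ω) : Matrix k k Ω →* Matrix k k Ω) w * (R'.u g)⁻¹ * w⁻¹
  have hzlc : IsLocallyConstant z := by
    have e1 : IsLocallyConstant
        (fun g : Ω ≃ₐ[F] Ω => Units.map ((mp k g : Matrix k k Ω →+* Matrix k k Ω) : Matrix k k Ω →* Matrix k k Ω) w) := by
      refine IsLocallyConstant.desc _ (Units.val) ?_ Units.val_injective
      exact lc_mp k (w : Matrix k k Ω)
    exact ((R.lc.mul e1).mul R'.lc.inv).mul (IsLocallyConstant.const _)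
  have hzw : ∀ g, z g * (w * R'.u g) =
      R.u g * Units.map ((mp k g : Matrix k k Ω →+* Matrix k k Ω) : Matrix k k Ω →* Matrix k k Ω) w := by
    intro g
    simp only [z]
    group
  have hcomm : ∀ g a, (z g : Matrix k k Ω) * R.ι a = R.ι a * (z g : Matrix k k Ω) := by
    intro g a
    -- twist both sides
    have e1 : mp k g (R'.ι a) = (↑(R'.u g)⁻¹ : Matrix k k Ω) * R'.ι a * (R'.u g : Matrix k k Ω) :=
      R'.tw g a
    have e2 : mp k g (R.ι a) = (↑(R.u g)⁻¹ : Matrix k k Ω) * R.ι a * (R.u g : Matrix k k Ω) :=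
      R.tw g a
    set W := Units.map ((mp k g : Matrix k k Ω →+* Matrix k k Ω) : Matrix k k Ω →* Matrix k k Ω) w with hW
    have hWv : (W : Matrix k k Ω) = mp k g (w : Matrix k k Ω) := rfl
    have hWi : ((W⁻¹ : (Matrix k k Ω)ˣ) : Matrix k k Ω) = mp k g (↑w⁻¹ : Matrix k k Ω) := by
      rw [hW, ← map_inv]; rfl
    have e3 : (↑W⁻¹ : Matrix k k Ω) * ((↑(R.u g)⁻¹ : Matrix k k Ω) * R.ι a * (R.u g : Matrix k k Ω))
        * (W : Matrix k k Ω) =
        (↑(R'.u g)⁻¹ : Matrix k k Ω) * ((↑w⁻¹ : Matrix k k Ω) * R.ι a * (w : Matrix k k Ω)) *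
          (R'.u g : Matrix k k Ω) := by
      rw [← e2, ← hw' a, ← e1, hw' a, map_mul, map_mul, hWi, hWv]
    -- z a = a z
    have hzv : (z g : Matrix k k Ω) = (R.u g : Matrix k k Ω) * (W : Matrix k k Ω) *
        (↑(R'.u g)⁻¹ : Matrix k k Ω) * (↑w⁻¹ : Matrix k k Ω) := by
      simp only [z, Units.val_mul]
      rfl
    calc (z g : Matrix k k Ω) * R.ι a
        = (R.u g : Matrix k k Ω) * (W : Matrix k k Ω) *
          ((↑(R'.u g)⁻¹ : Matrix k k Ω) * ((↑w⁻¹ : Matrix k k Ω) * R.ι a * (w : Matrix k k Ω)) *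
          (R'.u g : Matrix k k Ω)) * (↑(R'.u g)⁻¹ : Matrix k k Ω) * (↑w⁻¹ : Matrix k k Ω) := by
          rw [hzv]
          simp only [mul_assoc, Units.mul_inv, mul_one]
      _ = (R.u g : Matrix k k Ω) * (W : Matrix k k Ω) *
          ((↑W⁻¹ : Matrix k k Ω) * ((↑(R.u g)⁻¹ : Matrix k k Ω) * R.ι a * (R.u g : Matrix k k Ω))
            * (W : Matrix k k Ω)) * (↑(R'.u g)⁻¹ : Matrix k k Ω) * (↑w⁻¹ : Matrix k k Ω) := by
          rw [e3]
      _ = R.ι a * (z g : Matrix k k Ω) := by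
          rw [hzv]
          simp only [mul_assoc, Units.mul_inv_cancel_left]
  have hcommM : ∀ g (M : Matrix k k Ω), (z g : Matrix k k Ω) * M = M * (z g : Matrix k k Ω) := by
    intro g M
    have hM : M ∈ Submodule.span Ω (Set.range R.ι) := by rw [R.span]; trivial
    induction hM using Submodule.span_induction with
    | mem x hx => obtain ⟨a, rfl⟩ := hx; exact hcomm g a
    | zero => simp
    | add x y _ _ hx hy => rw [mul_add, add_mul, hx, hy]
    | smul c x _ hx => rw [Matrix.mul_smul, Matrix.smul_mul, hx]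
  have hscal : ∀ g, ∃ c : Ω, (z g : Matrix k k Ω) = Matrix.scalar k c := by
    intro g
    have := Matrix.mem_range_scalar_of_commute_single (M := (z g : Matrix k k Ω))
      (fun i j _ => (hcommM g (Matrix.single i j 1)).symm)
    obtain ⟨c, hc⟩ := this
    exact ⟨c, hc.symm⟩
  choose c hc using hscal
  have hentry : ∀ g, (z g : Matrix k k Ω) i0 i0 = c g := by
    intro g
    rw [hc g]
    simp
  have hc0 : ∀ g, c g ≠ 0 := by
    intro g h0
    have h2 : (z g : Matrix k k Ω) = 0 := by rw [hc g, h0, map_zero]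
    have h3 : (1 : Matrix k k Ω) = 0 := by
      rw [← (z g).mul_inv, h2, zero_mul]
    have h4 := congrFun (congrFun h3 i0) i0
    simp at h4
  let b : (Ω ≃ₐ[F] Ω) → Ωˣ := fun g => Units.mk0 (c g) (hc0 g)
  have hb : ∀ g, (b g : Ω) = c g := fun g => rfl
  refine ⟨b, ?_, ?_⟩
  · refine IsLocallyConstant.desc _ (Units.val) ?_ Units.val_injective
    have : (Units.val ∘ b) = (fun M : (Matrix k k Ω)ˣ => (M : Matrix k k Ω) i0 i0) ∘ z := by
      funext g
      exact (hentry g).symm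
    rw [this]
    exact hzlc.comp _
  · intro g h
    -- u g * g(w) = b g • (w * u' g)
    have key : ∀ g, (R.u g : Matrix k k Ω) * mp k g (w : Matrix k k Ω) =
        c g • ((w : Matrix k k Ω) * (R'.u g : Matrix k k Ω)) := by
      intro g
      have e := congrArg Units.val (hzw g)
      simp only [Units.val_mul] at e
      rw [hc g, Matrix.scalar_apply, ← Matrix.smul_eq_diagonal_mul] at e
      exact e.symm
    have e1 : (f g h : Ω) • ((R.u (g * h) : Matrix k k Ω) * mp k (g * h) (w : Matrix k k Ω)) =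
        ((c g * g (c h)) * (f' g h : Ω)) • ((w : Matrix k k Ω) * (R'.u (g * h) : Matrix k k Ω)) := by
      have a1 : (f g h : Ω) • ((R.u (g * h) : Matrix k k Ω) * mp k (g * h) (w : Matrix k k Ω)) =
          ((R.u g : Matrix k k Ω) * mp k g (R.u h : Matrix k k Ω)) *
            mp k g (mp k h (w : Matrix k k Ω)) := by
        rw [← mp_mul, ← Matrix.smul_mul, ← R.fac g h]; rfl
      have a2 : mp k g (R'.u h : Matrix k k Ω) = ((R'.u h : Matrix k k Ω)).map g := rfl
      rw [a1, mul_assoc, ← map_mul, key h, mp_smul, map_mul, Matrix.mul_smul, ← mul_assoc, key g,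
        Matrix.smul_mul, mul_assoc, a2, R'.fac g h, Matrix.mul_smul, smul_smul, smul_smul]
      congr 1
      ring
    rw [key (g * h), smul_smul] at e1
    -- cancel the invertible matrix
    have e2 : (f g h : Ω) * c (g * h) = c g * g (c h) * (f' g h : Ω) := by
      have e3 := congrArg (fun M : Matrix k k Ω =>
        (M * ((w * R'.u (g * h))⁻¹ : (Matrix k k Ω)ˣ) : Matrix k k Ω) i0 i0) e1
      simp only [Matrix.smul_mul] at e3
      rw [← Units.val_mul, Units.mul_inv] at e3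
      simpa using e3
    have e4 : f g h * b (g * h) = b g * (g • b h) * f' g h := by
      apply Units.ext
      simp only [Units.val_mul, hb]
      exact e2
    show f g h * (f' g h)⁻¹ = b g * (g • b h) * (b (g * h))⁻¹
    rw [mul_inv_eq_iff_eq_mul, mul_right_comm, ← e4, mul_inv_cancel_right]

end

theorem uniq (h1 : SkoNoStatement.{u, 0}) (h2 : RepOpStatement.{u, 0}) : UniqStatement.{u} := by
  intro F Ω _ _ _ _ A B _ _ _ _ n m f f' R R' p q hp hq e
  obtain ⟨R1⟩ := (h2 F Ω A (Fin n) f R).2.2.2 p hp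
  obtain ⟨R1'⟩ := (h2 F Ω B (Fin m) f' R').2.2.2 q hq
  obtain ⟨R2⟩ := (h2 F Ω _ (Fin n × Fin p) f R1).2.1 _ e
  have hcard : Fintype.card (Fin n × Fin p) = Fintype.card (Fin m × Fin q) := by
    have h3 := R2.dim
    rw [R1'.dim] at h3
    exact (Nat.pow_left_injective (n := 2) (by norm_num) h3).symm
  obtain ⟨R3⟩ := (h2 F Ω _ (Fin n × Fin p) f R2).1 (Fin m × Fin q) (Fintype.equivOfCardEq hcard)
  exact core h1 _ (Fin m × Fin q) f f' R3 R1'

end BR7.H65
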